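import Pool.Agent.Y920.QB.Qs2
import Pool.Agent.TH673.VG.CritInd
import Pool.Agent.TH673.VG.Crit

set_option autoImplicit false

/-! QB-UD: a cut structure decides whether `S` is of elementary type. -/

namespace Pool.Agent.Y941.QB

open Pool.Agent.H315R3.ETC Pool.Agent.TH673.VG Pool.Agent.Y920.QB

section

variable {S T : QData} (hS : IsQuat S) (hT : IsQuat T) (hc : Cut S T)

include hS hT hc in
theorem up [Finite S.G] (hel : StepAll T) : Elem S := by
  obtain ⟨ι, P, hE, hsurj, hP, -, hval⟩ := hc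
  refine elem_of_step hS fun H hH hI => stepTwo_of_step ?_
  have hPH : P ≤ H := hP.trans ((Subgroup.closure_le H).2 fun a ha => hI a ha)
  have hH' : H.comap ι ≠ ⊤ := by
    intro htop
    apply hH
    rw [eq_top_iff]
    intro x _
    obtain ⟨t, ht⟩ := hsurj x
    have h1 : t ∈ H.comap ι := by rw [htop]; trivial
    exact (Subgroup.mul_mem_cancel_right H h1).1 (hPH ht)
  obtain ⟨a, ha, hst⟩ := hel _ hH'
  refine ⟨ι a, ha, fun h hh x hx => ?_⟩
  obtain ⟨g', hg1, hg2⟩ := hval (ι a * h)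
  obtain ⟨x', hx1, hx2⟩ := hg2 x hx
  have e1 : a * (a * g') = g' := by rw [← mul_assoc, hT.exp2, one_mul]
  have h2 : a * g' ∈ H.comap ι := by
    show ι (a * g') ∈ H
    rw [map_mul]
    have h3 : h * (ι a * ι g') = ι a * h * ι g' := by rw [mul_left_comm, mul_assoc]
    have h4 : h * (ι a * ι g') ∈ H := by rw [h3]; exact hPH hg1
    exact (Subgroup.mul_mem_cancel_left H hh).1 h4
  obtain ⟨v, k, hv, hk, hvk⟩ := hst (a * g') h2 x' (by rw [e1]; exact hx2)
  refine ⟨ι v, ι k * (x * ι x'), ?_, H.mul_mem hk (hPH hx1), ?_⟩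
  · exact (hE.zero a v).1 hv
  · rw [← mul_assoc, ← map_mul, hvk, mul_left_comm, hS.exp2, mul_one]

include hS hT hc in
theorem down [Finite T.G] (hel : StepAll S) : Elem T := by
  obtain ⟨ι, P, hE, -, -, hPT, hval⟩ := hc
  refine elem_of_step hT fun H' hH' hI => stepTwo_of_step ?_
  have hcl : Subgroup.closure {a : T.G | IndexTwo T a} ≤ H' :=
    (Subgroup.closure_le H').2 fun a ha => hI a ha
  have hPH : P ≤ H'.map ι ⊔ P := le_sup_right
  have hmem : ∀ x : T.G, ι x ∈ H'.map ι ⊔ P ↔ x ∈ H' := by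
    intro x
    constructor
    · intro hx
      obtain ⟨y, ⟨h, hh, rfl⟩, p, hp, e⟩ := Subgroup.mem_sup.1 hx
      have h1 : ι (h * x) ∈ P := by
        rw [map_mul, ← e, ← mul_assoc, ← map_mul, hT.exp2, map_one, one_mul]
        exact hp
      exact (Subgroup.mul_mem_cancel_left H' hh).1 (hcl (hPT _ h1))
    · intro hx
      exact Subgroup.mem_sup_left ⟨x, hx, rfl⟩
  have hne : H'.map ι ⊔ P ≠ ⊤ := by
    intro htop
    apply hH'
    rw [eq_top_iff]
    intro x _
    rw [← hmem, htop]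
    trivial
  obtain ⟨a, ha, hst⟩ := hel _ hne
  obtain ⟨a', ha1, ha2⟩ := hval a
  refine ⟨a', fun h1 => ha ((Subgroup.mul_mem_cancel_right _ ((hmem a').2 h1)).1 (hPH ha1)),
    fun h' hh' x hx => ?_⟩
  have e1 : a * (a * ι (a' * h')) = ι (a' * h') := by rw [← mul_assoc, hS.exp2, one_mul]
  have h2 : a * ι (a' * h') ∈ H'.map ι ⊔ P := by
    rw [map_mul, ← mul_assoc]
    exact Subgroup.mul_mem _ (hPH ha1) ((hmem h').2 hh')
  obtain ⟨v, k, hv, hk, hvk⟩ := hst _ h2 (ι x) (by rw [e1]; exact (hE.zero _ _).1 hx)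
  obtain ⟨v', hv1, hv2⟩ := ha2 v hv
  refine ⟨v', v' * x, hv2, ?_, by rw [← mul_assoc, hT.exp2, one_mul]⟩
  rw [← hmem, map_mul, ← hvk, ← mul_assoc, mul_comm (ι v') v]
  exact Subgroup.mul_mem _ (hPH hv1) hk

end

theorem t_UD : Pool.Agent.Y920.QB.S_UD := by
  intro S T hS hT _ _ hc
  exact ⟨fun h => down hS hT hc (stepAll_of_elem hS h), fun h => up hS hT hc (stepAll_of_elem hT h)⟩

end Pool.Agent.Y941.QB
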